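import Pool.Agent.TH706.EL.Main
import Pool.Agent.W895.EL.Core

set_option autoImplicit false
set_option linter.unusedSectionVars false

/-!
# The lower bound for End-of-Line and programs with a stack, for fixed constants
-/

open Finset

namespace Pool.Agent.TH706.EL

open Equiv (Perm)
open Pool.Agent.H554R2.Sem Pool.Agent.H554R2.Coin Pool.Agent.H554R2.Rnd
open Pool.Agent.W895.EL (Str Tab Ent DepOn tot lab tab fm LiftG lname bits cnt cnt1 tots cnt_nonneg
  cnt_le sum_cnt_le sum_cnt_sgp depOn_bits cnt_ge sum_disj sum_cnt1_fm key Fam Easy Uniq IsSol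
  Promised zer Gate Circuit consts sucT preT tb tb_bits ent ent_inj sucT_congr preT_congr
  half_perm log_small exists_names fun_main ckt_main mapBP mapBP_comp promised sol_iff many_x)
open Pool.Agent.W896.PD (PP Act)
open Pool.Agent.TH706.CD

/-- The program with a stack outputs within `τ` queries a solution of the instance `x`. -/
def Solves {n d : ℕ} (F : Fam n d) (P : PP (Fin n) (Str d)) (τ : ℕ) (x : Pt n) : Prop :=
  ∃ v, OutIn P τ v x ∧ IsSol (F.suc x) (F.pre x) v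

open Classical in
/-- Programs with a stack and at most `2 ^ (n / D)` nodes solve within `k n` queries at most the `r`-th part of
the instances in `X`. -/
def Hard {n d : ℕ} (F : Fam n d) (X : Finset (Pt n)) (k r D : ℕ) : Prop :=
  ∀ P : PP (Fin n) (Str d), Fintype.card P.State ≤ 2 ^ (n / D) →
    r * (X.filter (Solves F P (k * n))).card ≤ X.card

/-- **The lower bound for fixed constants.** -/
theorem core (k r : ℕ) : ∃ D : ℕ, 1 ≤ D ∧ ∀ n ≥ D, ∃ (d : ℕ) (F : Fam n d) (X : Finset (Pt n)),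
    Easy F D ∧ Uniq F X D ∧ Hard F X k r D := by
  classical
  obtain ⟨L, C, hL, hC, hlift⟩ := liftG k
  obtain ⟨B, hB, hfun⟩ := fun_main L
  obtain ⟨M, hM⟩ : ∃ M : ℕ, 8 * (r + 1) * (L + 1) * B ≤ M ∧ 1 ≤ M := by
    obtain ⟨M, hM⟩ := exists_nat_ge (8 * (r + 1) * (L + 1) * B)
    refine ⟨M + 1, ?_, by omega⟩
    push_cast
    linarith
  obtain ⟨hM1, hM2⟩ := hM
  obtain ⟨c, hc⟩ : ∃ c, c = (L + 1) * M := ⟨_, rfl⟩
  have hc1 : 1 ≤ c := by rw [hc]; exact Nat.mul_pos (by omega) hM2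
  obtain ⟨m, hm⟩ : ∃ m, m + 1 = 2 ^ c := ⟨2 ^ c - 1, by have : 0 < 2 ^ c := by positivity
                                                        omega⟩
  have hcm : (L + 1) * M ≤ m + 1 := by
    rw [hm, ← hc]
    exact Nat.lt_two_pow_self.le
  have hm1 : 1 ≤ m := by
    have : 2 ^ 1 ≤ 2 ^ c := Nat.pow_le_pow_right (by norm_num) hc1
    omega
  obtain ⟨nm, h0⟩ := exists_names c m hm
  obtain ⟨J, hJ⟩ : ∃ J, J = 2 ^ (c + 1) * (c + 1) := ⟨_, rfl⟩
  obtain ⟨G, hG⟩ : ∃ G, G = 2 ^ (c + 1) := ⟨_, rfl⟩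
  obtain ⟨q⟩ : Nonempty (Fin J ≃ Str (c + 1) × Fin (c + 1)) :=
    ⟨Fintype.equivOfCardEq (by simp [hJ])⟩
  obtain ⟨g⟩ : Nonempty (Str (c + 1) ≃ Fin G) := ⟨Fintype.equivOfCardEq (by simp [hG])⟩
  obtain ⟨s, hs⟩ := ckt_main J (c + 1)
  obtain ⟨a, ha, hfun⟩ := hfun M m hM2 hcm
  obtain ⟨E, hE⟩ : ∃ E : ℕ, E = 16 * (r + 1) * (m + 1) * 2 ^ J := ⟨_, rfl⟩
  obtain ⟨n0, hn0⟩ := log_small (2 * C * E)
  obtain ⟨D, hD1, hD2, hD3, hD4, hD5, hD6, hD7, hD8⟩ : ∃ D : ℕ, 1 ≤ D ∧ n0 ≤ D ∧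
      C * (G + J + 1) ≤ D ∧ 2 * C * E ≤ D ∧ c + 1 ≤ D ∧ s * (C * (G + 1) + 1) ≤ D ∧
      2 ^ (J + 1) * (C * (G + 1) + 1) ≤ D ∧ 2 ^ (J + 2) ≤ D := by
    obtain ⟨a1, ha1⟩ : ∃ a1, a1 = C * (G + J + 1) := ⟨_, rfl⟩
    obtain ⟨a2, ha2⟩ : ∃ a2, a2 = 2 * C * E := ⟨_, rfl⟩
    obtain ⟨a3, ha3⟩ : ∃ a3, a3 = s * (C * (G + 1) + 1) := ⟨_, rfl⟩
    obtain ⟨a4, ha4⟩ : ∃ a4, a4 = 2 ^ (J + 1) * (C * (G + 1) + 1) := ⟨_, rfl⟩
    obtain ⟨a5, ha5⟩ : ∃ a5, a5 = 2 ^ (J + 2) := ⟨_, rfl⟩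
    rw [← ha1, ← ha2, ← ha3, ← ha4, ← ha5]
    exact ⟨1 + n0 + a1 + a2 + (c + 1) + a3 + a4 + a5, by omega, by omega, by omega, by omega,
      by omega, by omega, by omega, by omega⟩
  refine ⟨D, hD1, fun n hn => ?_⟩
  have hn1 : 1 ≤ n := hD1.trans hn
  obtain ⟨R, π, h, hp⟩ := hlift n G J (fun j => g (q j).1) (hD3.trans hn)
  obtain ⟨e, he⟩ : ∃ e : Fin J → Fin G, e = fun j => g (q j).1 := ⟨_, rfl⟩
  obtain ⟨Z, hZ⟩ : ∃ Z, Z = C * (G + 1) * n := ⟨_, rfl⟩
  obtain ⟨gS, oS, hS1, hS2⟩ := hs n G R Z π e h (fun g => by rw [hZ]; exact hp.size g)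
    (fun p v => sucT (tb q p) v)
  obtain ⟨gP, oP, hP1, hP2⟩ := hs n G R Z π e h (fun g => by rw [hZ]; exact hp.size g)
    (fun p v => preT (tb q p) v)
  have hsuc : ∀ x, (Fam.mk gS gP oS oP).suc x = sucT (tb q (fm e π h x)) := by
    intro x
    funext v
    exact hS2 x v
  have hpre : ∀ x, (Fam.mk gS gP oS oP).pre x = preT (tb q (fm e π h x)) := by
    intro x
    funext v
    exact hP2 x v
  have hZn : Z + 1 ≤ (C * (G + 1) + 1) * n := by
    rw [hZ, add_mul, one_mul]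
    omega
  obtain ⟨X, hX⟩ : ∃ X : Finset (Pt n), X = univ.filter (fun x =>
    ∃ β : Perm (Option (Fin m)), β none ≠ none ∧ fm e π h x = bits nm q (tab univ β 1)) :=
    ⟨_, rfl⟩
  have hp' : LiftG k L C G J R n e π h := by rw [he]; exact hp.toLiftG
  have hXc := many_x nm h0 q hm1 hp'
  rw [← hX] at hXc
  have hperm : (1 : ℝ) ≤ Fintype.card (Perm (Option (Fin m))) := by
    exact_mod_cast Fintype.card_pos
  have h2J : (0 : ℝ) < 2 ^ J := by positivity
  have h2n : (0 : ℝ) < 2 ^ n := by positivity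
  refine ⟨c + 1, ⟨gS, gP, oS, oP⟩, X, ⟨hD5, ?_, ?_, ?_⟩, ⟨?_, ?_⟩, ?_⟩
  · calc gS.length ≤ s * (Z + 1) := hS1
      _ ≤ s * ((C * (G + 1) + 1) * n) := Nat.mul_le_mul_left _ hZn
      _ = s * (C * (G + 1) + 1) * n := by ring
      _ ≤ D * n := Nat.mul_le_mul_right _ hD6
  · calc gP.length ≤ s * (Z + 1) := hP1
      _ ≤ s * ((C * (G + 1) + 1) * n) := Nat.mul_le_mul_left _ hZn
      _ = s * (C * (G + 1) + 1) * n := by ring
      _ ≤ D * n := Nat.mul_le_mul_right _ hD6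
  · intro v
    obtain ⟨U, l, h1, h2, h3⟩ := Pool.Agent.W460.EL.vec n R J (π (g v)) h
    refine ⟨mapBP (fun w => (sucT (fun _ i => w (q.symm (v, i))) v,
      preT (fun _ i => w (q.symm (v, i))) v)) U, l, ?_, h2, fun x => ?_⟩
    · calc Fintype.card U.State ≤ 2 ^ (J + 1) * (∑ r, 2 ^ (univ.filter
            (fun w => π (g v) w = r)).card + 1) := h1
        _ ≤ 2 ^ (J + 1) * (Z + 1) := by
            apply Nat.mul_le_mul_left
            rw [hZ]
            exact Nat.add_le_add_right (hp.size (g v)) 1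
        _ ≤ 2 ^ (J + 1) * ((C * (G + 1) + 1) * n) := Nat.mul_le_mul_left _ hZn
        _ = 2 ^ (J + 1) * (C * (G + 1) + 1) * n := by ring
        _ ≤ D * n := Nat.mul_le_mul_right _ hD7
    · rw [mapBP_comp]
      refine ⟨_, h3 x, ?_⟩
      rw [hsuc, hpre]
      obtain ⟨t, ht⟩ : ∃ t : Str (c + 1) → Str (c + 1), t = fun _ i =>
          (fun j => qr (π (g v)) (h j) x) (q.symm (v, i)) := ⟨_, rfl⟩
      have h4 : t v = tb q (fm e π h x) v := by
        rw [ht]
        funext i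
        simp only [tb, fm, he, Equiv.apply_symm_apply]
      have e1 := sucT_congr h4
      have e2 := preT_congr h4
      rw [ht] at e1 e2
      exact Prod.ext e1 e2
  · have h1 : (2 : ℝ) ^ n ≤ 2 ^ (J + 2) * X.card := by
      have h2 : 3 / 8 * ((2 : ℝ) ^ n / 2 ^ J) ≤ X.card := by
        refine le_trans ?_ hXc
        have h3 : (0 : ℝ) ≤ 3 / 8 * ((2 : ℝ) ^ n / 2 ^ J) := by positivity
        nlinarith
      have h4 : (2 : ℝ) ^ n = 2 ^ J * ((2 : ℝ) ^ n / 2 ^ J) := by field_simp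
      rw [h4, pow_add, mul_assoc]
      apply mul_le_mul_of_nonneg_left _ h2J.le
      have h5 : (0 : ℝ) ≤ (2 : ℝ) ^ n / 2 ^ J := by positivity
      linarith
    have h2 : 2 ^ n ≤ 2 ^ (J + 2) * X.card := by exact_mod_cast h1
    exact h2.trans (Nat.mul_le_mul_right _ hD8)
  · intro x hx
    rw [hX] at hx
    obtain ⟨β, hβ, hx2⟩ := (Finset.mem_filter.1 hx).2
    have htb : tb q (fm e π h x) = ent nm (tab univ β 1) := by rw [hx2, tb_bits]
    rw [hsuc, hpre, htb]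
    refine ⟨promised nm h0 β hβ, lname nm (β.symm none), ?_, ?_⟩
    · exact (sol_iff nm h0 β (β.symm none) (β.apply_symm_apply none) (fun h1 => hβ ((Equiv.symm_apply_eq β).1 h1).symm) _).2 rfl
    · intro v hv
      exact (sol_iff nm h0 β (β.symm none) (β.apply_symm_apply none) (fun h1 => hβ ((Equiv.symm_apply_eq β).1 h1).symm) _).1 hv
  · intro P hP
    obtain ⟨t, ht⟩ : ∃ t, t = n / D := ⟨_, rfl⟩
    obtain ⟨w, hw⟩ : ∃ w, w = Nat.log 2 n := ⟨_, rfl⟩
    obtain ⟨S, hS⟩ : ∃ S, S = t + (w + 1) := ⟨_, rfl⟩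
    have hnS : n ≤ 2 ^ S := by
      have h1 : n < 2 ^ (w + 1) := by
        rw [hw]
        exact Nat.lt_pow_succ_log_self (by norm_num) n
      exact h1.le.trans (Nat.pow_le_pow_right (by norm_num) (by omega))
    have hPS : Fintype.card P.State ≤ 2 ^ S :=
      hP.trans (Nat.pow_le_pow_right (by norm_num) (by rw [← ht]; omega))
    have hSE : C * S * E ≤ n := by
      have h1 := hn0 n (hD2.trans hn)
      rw [← hw] at h1
      have h2 : 2 * C * E * t ≤ n := by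
        rw [ht]
        calc 2 * C * E * (n / D) ≤ D * (n / D) := Nat.mul_le_mul_right _ hD4
          _ ≤ n := Nat.mul_div_le n D
      have h3 : 2 * (C * S * E) = 2 * C * E * t + 2 * C * E * (w + 1) := by
        rw [hS]; ring
      have h4 : 2 * (C * S * E) ≤ 2 * n := by
        rw [h3, two_mul n]
        exact Nat.add_le_add h2 h1
      exact Nat.le_of_mul_le_mul_left h4 (by norm_num)
    have hS0 : 0 < S := by rw [hS]; omega
    have hE2 : E ≤ n / (C * S) := by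
      rw [Nat.le_div_iff_mul_le (Nat.mul_pos (by omega) hS0)]
      calc E * (C * S) = C * S * E := by ring
        _ ≤ n := hSE
    have hb : (0 : ℝ) ≤ B / M := by positivity
    have hsucc := success nm q (g := g) g.injective hp hb M a ha hfun S hnS (k * n) le_rfl P hPS
      (X.filter (Solves ⟨gS, gP, oS, oP⟩ P (k * n))) (by
        intro x hx
        obtain ⟨hx1, v, hv1, hv2⟩ := Finset.mem_filter.1 hx
        rw [hX] at hx1
        obtain ⟨β, hβ, hx2⟩ := (Finset.mem_filter.1 hx1).2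
        have htb : tb q (fm e π h x) = ent nm (tab univ β 1) := by rw [hx2, tb_bits]
        rw [hsuc, hpre, htb] at hv2
        have h1 := (sol_iff nm h0 β (β.symm none) (β.apply_symm_apply none) (fun h1 => hβ ((Equiv.symm_apply_eq β).1 h1).symm) v).1 hv2
        refine ⟨β, β.symm none, β.apply_symm_apply none, ?_, h1 ▸ hv1⟩
        rw [← hx2, he])
    obtain ⟨Y, hY⟩ : ∃ Y, Y = (X.filter (Solves ⟨gS, gP, oS, oP⟩ P (k * n))).card := ⟨_, rfl⟩
    rw [← hY] at hsucc ⊢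
    have hfac : (0 : ℝ) < Fintype.card (Perm (Fin m)) := by exact_mod_cast Fintype.card_pos
    have hsucc2 : (Y : ℝ) ≤ ((L + 1) * (B / M) * (5 / 4 * (2 ^ n / 2 ^ J)) +
        (m + 1) * (2 ^ n * (1 + (L + 1) * (B / M)) / 2 ^ (n / (C * S)))) *
        Fintype.card (Perm (Option (Fin m))) := by
      unfold tots at hsucc
      rw [← mul_assoc] at hsucc
      exact le_of_mul_le_mul_right hsucc hfac
    have hr1 : (1 : ℝ) ≤ (r : ℝ) + 1 := by
      have : (0 : ℝ) ≤ r := Nat.cast_nonneg r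
      linarith
    have hM0 : (0 : ℝ) < M := by exact_mod_cast hM2
    have hLB : ((L : ℝ) + 1) * (B / M) ≤ 1 / (8 * (r + 1)) := by
      rw [le_div_iff₀ (by positivity), mul_div_assoc']
      rw [div_mul_eq_mul_div, div_le_one hM0]
      calc (L + 1) * B * (8 * (r + 1)) = 8 * (r + 1) * (L + 1) * B := by ring
        _ ≤ M := hM1
    have hLB1 : ((L : ℝ) + 1) * (B / M) ≤ 1 := by
      refine hLB.trans ?_
      rw [div_le_one (by positivity)]
      linarith
    have hLB0 : 0 ≤ ((L : ℝ) + 1) * (B / M) := by positivity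
    have hpowE : (16 * (r + 1) * (m + 1) * 2 ^ J : ℝ) ≤ 2 ^ (n / (C * S)) := by
      have h1 : E ≤ 2 ^ (n / (C * S)) :=
        (Nat.lt_two_pow_self (n := E)).le.trans (Nat.pow_le_pow_right (by norm_num) hE2)
      have h2 : (E : ℝ) ≤ 2 ^ (n / (C * S)) := by exact_mod_cast h1
      rw [hE] at h2
      push_cast at h2
      exact h2
    have herr : ((m : ℝ) + 1) * (2 ^ n * (1 + (L + 1) * (B / M)) / 2 ^ (n / (C * S))) ≤
        1 / (8 * (r + 1)) * (2 ^ n / 2 ^ J) := by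
      have h1 : (0 : ℝ) < 16 * (r + 1) * (m + 1) * 2 ^ J := by positivity
      calc ((m : ℝ) + 1) * (2 ^ n * (1 + (L + 1) * (B / M)) / 2 ^ (n / (C * S))) ≤
          ((m : ℝ) + 1) * (2 ^ n * 2 / (16 * (r + 1) * (m + 1) * 2 ^ J)) := by
            apply mul_le_mul_of_nonneg_left _ (by positivity)
            apply div_le_div₀ (by positivity) _ h1 hpowE
            apply mul_le_mul_of_nonneg_left _ (by positivity)
            linarith
        _ = _ := by
            field_simp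
            ring
    have hfin : (((r + 1 : ℕ) : ℝ)) * Y ≤ X.card := by
      have hu : (0 : ℝ) ≤ 2 ^ n / 2 ^ J := by positivity
      have h1 : (L + 1) * (B / M) * (5 / 4 * ((2 : ℝ) ^ n / 2 ^ J)) ≤
          1 / (8 * (r + 1)) * (5 / 4 * (2 ^ n / 2 ^ J)) :=
        mul_le_mul_of_nonneg_right hLB (by positivity)
      have h2 : (Y : ℝ) ≤ 1 / (8 * (r + 1)) * (9 / 4 * (2 ^ n / 2 ^ J)) *
          Fintype.card (Perm (Option (Fin m))) := by
        refine hsucc2.trans (mul_le_mul_of_nonneg_right ?_ (by positivity))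
        calc _ ≤ 1 / (8 * (r + 1)) * (5 / 4 * ((2 : ℝ) ^ n / 2 ^ J)) +
            1 / (8 * (r + 1)) * (2 ^ n / 2 ^ J) := add_le_add h1 herr
          _ = _ := by ring
      refine le_trans ?_ hXc
      push_cast
      calc ((r : ℝ) + 1) * Y ≤ (r + 1) * (1 / (8 * (r + 1)) * (9 / 4 * (2 ^ n / 2 ^ J)) *
            Fintype.card (Perm (Option (Fin m)))) := mul_le_mul_of_nonneg_left h2 (by positivity)
        _ = (Fintype.card (Perm (Option (Fin m))) : ℝ) * (9 / 32 * (2 ^ n / 2 ^ J)) := by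
            field_simp
            ring
        _ ≤ _ := by
            apply mul_le_mul_of_nonneg_left _ (by positivity)
            apply mul_le_mul_of_nonneg_right _ hu
            norm_num
    have hfin2 : (r + 1) * Y ≤ X.card := by exact_mod_cast hfin
    exact (Nat.mul_le_mul_right _ (Nat.le_succ r)).trans hfin2

end Pool.Agent.TH706.EL
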