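import Pool.Agent.TH706.EL.Lift
import Pool.Agent.W895.EL.Main

set_option autoImplicit false
set_option linter.unusedSectionVars false

/-!
# Programs with a stack seldom find the unmatched node: the bound
-/

open Finset

namespace Pool.Agent.TH706.EL

open Equiv (Perm)
open Pool.Agent.H554R2.Sem Pool.Agent.H554R2.Coin Pool.Agent.H554R2.Rnd
open Pool.Agent.W895.PC (sgp abs_sgp expand)
open Pool.Agent.W895.EL (Str Tab Ent DepOn tot lab tab fm LiftG lname bits cnt cnt1 tots cnt_nonneg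
  cnt_le sum_cnt_le sum_cnt_sgp depOn_bits cnt_ge sum_disj sum_cnt1_fm key)
open Pool.Agent.W896.PD (PP Act)
open Pool.Agent.TH706.CD

variable {c m J G R n k L C : ℕ} (nm : Option (Fin m) ≃ Str c)
  (q : Fin J ≃ Str (c + 1) × Fin (c + 1))

open Classical in
/-- **The number of successes.** -/
theorem success {g : Str (c + 1) → Fin G} (hg : Function.Injective g)
    {π : Fin G → Fin n → Fin R}
    {h : Fin J → Fin n → Fin n → Bool} (hp : LiftGP k L C G J R n (fun j => g (q j).1) π h)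
    {b : ℝ} (hb : 0 ≤ b) (M : ℕ) (a : ℕ → ℝ) (ha : ∀ i, |a i| ≤ b)
    (hfun : ∀ (φ : Tab m → ℝ) (K : Finset (Ent m)), DepOn φ K →
      K.card ≤ L → ∀ v, tot φ v univ =
        ∑ i ∈ range (L + 1), a i * tot φ v (lab m (m + 1 - (i + 1) * M)))
    (S : ℕ) (hS : n ≤ 2 ^ S) (τ : ℕ) (hτ : τ ≤ k * n) (P : PP (Fin n) (Str (c + 1)))
    (hP : Fintype.card P.State ≤ 2 ^ S) (X : Finset (Pt n))
    (hX : ∀ x ∈ X, ∃ (β : Perm (Option (Fin m))) (l : Option (Fin m)), β l = none ∧
      fm (fun j => g (q j).1) π h x = bits nm q (tab univ β 1) ∧ OutIn P τ (lname nm l) x) :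
    (X.card : ℝ) * Fintype.card (Perm (Fin m)) ≤
      ((L + 1) * b * (5 / 4 * (2 ^ n / 2 ^ J)) +
        (m + 1) * (2 ^ n * (1 + (L + 1) * b) / 2 ^ (n / (C * S)))) * tots m := by
  obtain ⟨e, he⟩ : ∃ e : Fin J → Fin G, e = fun j => g (q j).1 := ⟨_, rfl⟩
  rw [← he] at hp hX
  obtain ⟨A, hA⟩ : ∃ A : Option (Fin m) → Finset (Pt n), A = fun l =>
    univ.filter (fun x => OutIn P τ (lname nm l) x) := ⟨_, rfl⟩
  have hAm : ∀ l x, x ∈ A l ↔ OutIn P τ (lname nm l) x := by
    intro l x
    rw [hA]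
    simp
  obtain ⟨Tt, hTt⟩ : ∃ Tt : ℕ → Finset (Fin m), Tt = fun i => lab m (m + 1 - (i + 1) * M) :=
    ⟨_, rfl⟩
  have hinj : ∀ l l', lname nm l = lname nm l' → l = l' := by
    intro l l' h1
    unfold lname at h1
    have h2 := congrArg Fin.tail h1
    rw [Fin.tail_cons, Fin.tail_cons] at h2
    exact nm.injective h2
  have hdisj : ∀ l l' x, x ∈ A l → x ∈ A l' → l = l' := by
    intro l l' x h1 h2
    exact hinj _ _ (outIn_unique ((hAm _ _).1 h1) ((hAm _ _).1 h2))
  -- the left side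
  have s1 : (X.card : ℝ) * Fintype.card (Perm (Fin m)) ≤
      ∑ l, ∑ x ∈ A l, cnt nm q l univ (fm e π h x) := by
    have h1 : ∀ x ∈ X, (Fintype.card (Perm (Fin m)) : ℝ) ≤
        ∑ l, if x ∈ A l then cnt nm q l univ (fm e π h x) else 0 := by
      intro x hx
      obtain ⟨β, l, hl, h2, h3⟩ := hX x hx
      have h4 := Finset.single_le_sum (s := univ) (f := fun l : Option (Fin m) =>
        if x ∈ A l then cnt nm q l univ (fm e π h x) else 0)
        (fun l _ => by
          split_ifs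
          · exact cnt_nonneg nm q _ _ _
          · exact le_rfl) (Finset.mem_univ l)
      refine le_trans ?_ h4
      rw [if_pos ((hAm l x).2 h3), h2]
      exact cnt_ge nm q β l hl
    calc (X.card : ℝ) * Fintype.card (Perm (Fin m)) =
        ∑ _x ∈ X, (Fintype.card (Perm (Fin m)) : ℝ) := by rw [Finset.sum_const, nsmul_eq_mul]
      _ ≤ ∑ x ∈ X, ∑ l, if x ∈ A l then cnt nm q l univ (fm e π h x) else 0 :=
        Finset.sum_le_sum h1
      _ ≤ ∑ x, ∑ l, if x ∈ A l then cnt nm q l univ (fm e π h x) else 0 := by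
        apply Finset.sum_le_sum_of_subset_of_nonneg (Finset.subset_univ _)
        intro x _ _
        refine Finset.sum_nonneg fun l _ => ?_
        split_ifs
        · exact cnt_nonneg nm q _ _ _
        · exact le_rfl
      _ = _ := by
        rw [Finset.sum_comm]
        refine Finset.sum_congr rfl fun l _ => ?_
        rw [← Finset.sum_filter]
        congr 1
        ext x
        simp
  -- the functional
  obtain ⟨Λ, hΛ⟩ : ∃ Λ : Option (Fin m) → (Fin J → Bool) → ℝ, Λ = fun l p =>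
    cnt nm q l univ p - ∑ i ∈ range (L + 1), a i * cnt nm q l (Tt i) p := ⟨_, rfl⟩
  have hΛ0 : ∀ l (u : Finset (Fin J)), (u.image e).card ≤ L → ∑ w, Λ l w * sgp u w = 0 := by
    intro l u hu
    have hcard : ((u.image (fun j => (q j).1)).image (key nm)).card ≤ L := by
      refine Finset.card_image_le.trans (le_trans (le_of_eq ?_) hu)
      have h1 : u.image e = (u.image (fun j => (q j).1)).image g := by
        rw [Finset.image_image, he]
        rfl
      rw [h1, Finset.card_image_of_injective _ hg]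
    have h2 := hfun _ _ (depOn_bits nm q u) hcard l
    rw [← sum_cnt_sgp] at h2
    have h3 : ∑ w, Λ l w * sgp u w = ∑ w, cnt nm q l univ w * sgp u w -
        ∑ i ∈ range (L + 1), a i * ∑ w, cnt nm q l (Tt i) w * sgp u w := by
      rw [hΛ]
      simp only [sub_mul, Finset.sum_sub_distrib, Finset.sum_mul, Finset.mul_sum]
      congr 1
      rw [Finset.sum_comm]
      exact Finset.sum_congr rfl fun i _ => Finset.sum_congr rfl fun w _ => by ring
    rw [h3, h2, hTt]
    simp only [← sum_cnt_sgp]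
    exact sub_self _
  have hΛ1 : ∀ l, ∑ w, |Λ l w| ≤ tots m * (1 + (L + 1) * b) := by
    intro l
    have h1 : ∀ w, |Λ l w| ≤ cnt nm q l univ w +
        ∑ i ∈ range (L + 1), b * cnt nm q l (Tt i) w := by
      intro w
      rw [hΛ]
      refine (abs_sub _ _).trans ?_
      apply add_le_add
      · rw [abs_of_nonneg (cnt_nonneg nm q _ _ _)]
      · refine (Finset.abs_sum_le_sum_abs _ _).trans (Finset.sum_le_sum fun i _ => ?_)
        rw [abs_mul, abs_of_nonneg (cnt_nonneg nm q _ _ _)]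
        exact mul_le_mul_of_nonneg_right (ha i) (cnt_nonneg nm q _ _ _)
    refine (Finset.sum_le_sum fun w _ => h1 w).trans ?_
    rw [Finset.sum_add_distrib, Finset.sum_comm,
      Finset.sum_congr rfl (fun i _ => (Finset.mul_sum (univ : Finset (Fin J → Bool))
        (fun w => cnt nm q l (Tt i) w) b).symm)]
    have h2 : ∀ i ∈ range (L + 1), b * ∑ w, cnt nm q l (Tt i) w ≤ b * tots m := fun i _ =>
      mul_le_mul_of_nonneg_left (sum_cnt_le nm q l (Tt i)) hb
    have h3 := Finset.sum_le_sum h2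
    rw [Finset.sum_const, Finset.card_range, nsmul_eq_mul] at h3
    push_cast at h3
    have h4 := sum_cnt_le nm q l (univ : Finset (Fin m))
    calc _ ≤ tots m + ((L : ℝ) + 1) * (b * tots m) := add_le_add h4 h3
      _ = _ := by ring
  have hE : (0 : ℝ) < 2 ^ (n / (C * S)) := by positivity
  have s2 : ∀ l, ∑ x ∈ A l, Λ l (fm e π h x) ≤
      2 ^ n * (1 + (L + 1) * b) / 2 ^ (n / (C * S)) * tots m := by
    intro l
    have h1 := hp.dualP (Λ l) (hΛ0 l) S hS τ hτ
      (mapPP (fun y => decide (y = lname nm l)) P) (by exact hP) (A l)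
      (fun x => by rw [hAm, outIn_iff])
    have h2 : |∑ x ∈ A l, Λ l (fm e π h x)| * 2 ^ (n / (C * S)) ≤
        2 ^ n * (tots m * (1 + (L + 1) * b)) :=
      h1.trans (mul_le_mul_of_nonneg_left (hΛ1 l) (by positivity))
    refine (le_abs_self _).trans ?_
    rw [← le_div_iff₀ hE] at h2
    refine h2.trans (le_of_eq ?_)
    ring
  have s3 : ∑ l, ∑ x ∈ A l, cnt nm q l univ (fm e π h x) =
      ∑ l, ∑ x ∈ A l, Λ l (fm e π h x) +
      ∑ i ∈ range (L + 1), a i * ∑ l, ∑ x ∈ A l, cnt nm q l (Tt i) (fm e π h x) := by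
    have h1 : ∀ l, ∑ x ∈ A l, cnt nm q l univ (fm e π h x) = ∑ x ∈ A l, Λ l (fm e π h x) +
        ∑ i ∈ range (L + 1), a i * ∑ x ∈ A l, cnt nm q l (Tt i) (fm e π h x) := by
      intro l
      simp only [Finset.mul_sum]
      rw [Finset.sum_comm, ← Finset.sum_add_distrib]
      refine Finset.sum_congr rfl fun x _ => ?_
      rw [hΛ]
      simp only
      ring
    rw [Finset.sum_congr rfl fun l _ => h1 l, Finset.sum_add_distrib]
    congr 1
    rw [Finset.sum_comm]
    exact Finset.sum_congr rfl fun i _ => (Finset.mul_sum _ _ _).symm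
  have s4 : ∑ i ∈ range (L + 1), a i * ∑ l, ∑ x ∈ A l, cnt nm q l (Tt i) (fm e π h x) ≤
      (L + 1) * b * (5 / 4 * (2 ^ n / 2 ^ J)) * tots m := by
    have h1 : ∀ i ∈ range (L + 1), a i * ∑ l, ∑ x ∈ A l, cnt nm q l (Tt i) (fm e π h x) ≤
        b * (5 / 4 * ((2 : ℝ) ^ n / 2 ^ J) * tots m) := by
      intro i _
      have h2 : 0 ≤ ∑ l, ∑ x ∈ A l, cnt nm q l (Tt i) (fm e π h x) :=
        Finset.sum_nonneg fun l _ => Finset.sum_nonneg fun x _ => cnt_nonneg nm q _ _ _
      have h3 := (sum_disj nm q (e := e) (π := π) (h := h) A hdisj (Tt i)).trans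
        (sum_cnt1_fm nm q hp.toLiftG (Tt i))
      calc _ ≤ b * ∑ l, ∑ x ∈ A l, cnt nm q l (Tt i) (fm e π h x) :=
            mul_le_mul_of_nonneg_right ((le_abs_self _).trans (ha i)) h2
        _ ≤ _ := mul_le_mul_of_nonneg_left h3 hb
    refine (Finset.sum_le_sum h1).trans (le_of_eq ?_)
    rw [Finset.sum_const, Finset.card_range, nsmul_eq_mul]
    push_cast
    ring
  have s5 : ∑ l, ∑ x ∈ A l, Λ l (fm e π h x) ≤
      (m + 1) * (2 ^ n * (1 + (L + 1) * b) / 2 ^ (n / (C * S))) * tots m := by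
    refine (Finset.sum_le_sum fun l _ => s2 l).trans (le_of_eq ?_)
    rw [Finset.sum_const, Finset.card_univ, Fintype.card_option, Fintype.card_fin, nsmul_eq_mul]
    push_cast
    ring
  rw [s3] at s1
  refine s1.trans ((add_le_add s5 s4).trans (le_of_eq ?_))
  ring

end Pool.Agent.TH706.EL
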